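import Mathlib

/-!
Progressions whose first terms are given by a tree of labels in base `b`.

The node number `q < b ^ i` of level `i` of the tree stands for the first `i` digits of the numbers
`r` with `⌊b ^ i r⌋ = q`; its children are the nodes `b q + d`, `0 ≤ d < b`, of level `i + 1`. The
label of the node `q` of level `i + 1` is `lab i q`.
-/

set_option autoImplicit false

namespace Pool.Agent.U685.KU

open Finset Polynomial

/-- the first term `∑ i, lab i ⌊b ^ (i + 1) r⌋ / b ^ (i + 1)` given by the labels -/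
noncomputable def first (b : ℕ) (lab : ℕ → ℕ → ℤ) (r : ℝ) : ℝ :=
  ∑' i : ℕ, (lab i ⌊(b : ℝ) ^ (i + 1) * r⌋₊ : ℝ) / (b : ℝ) ^ (i + 1)

/-- `B` contains the progressions with the differences in `R` and the first terms given by the
labels, with `k` terms -/
def Contains (k b : ℕ) (lab : ℕ → ℕ → ℤ) (R B : Set ℝ) : Prop :=
  ∀ r ∈ R, ∀ j : ℕ, j < k → first b lab r + j * r ∈ B

/-- For the node `p` of level `i`: the largest number of the `b` points (digit `d`, label of the child
`b p + d`) on a line of slope `-j`. -/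
def lineMax (b : ℕ) (lab : ℕ → ℕ → ℤ) (j i p : ℕ) : ℕ :=
  (range b).sup fun d₀ => ((range b).filter fun d =>
    lab i (b * p + d) + (j : ℤ) * (d : ℤ) = lab i (b * p + d₀) + (j : ℤ) * (d₀ : ℤ)).card

/-- Along the path of every `r ∈ R` the product over the levels `i < n` and the slopes `j < k` is at
most `A * b ^ (τ k n)`. -/
def LinesBounded (k b : ℕ) (lab : ℕ → ℕ → ℤ) (A τ : ℝ) (R : Set ℝ) : Prop :=
  ∀ r ∈ R, ∀ n : ℕ, ∏ i ∈ range n, ∏ j ∈ range k, (lineMax b lab j i ⌊(b : ℝ) ^ i * r⌋₊ : ℝ) ≤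
    A * (b : ℝ) ^ (τ * k * n)

/-- `S` is a cover of `B` by sets of diameter at most `δ` -/
def Cov (B : Set ℝ) (δ : ℝ) (S : Finset (Set ℝ)) : Prop :=
  (∀ Y ∈ S, ∀ x ∈ Y, ∀ y ∈ Y, |x - y| ≤ δ) ∧ ∀ x ∈ B, ∃ Y ∈ S, x ∈ Y

/-- For every node there are `D` polynomials of degree at most `m` over the field `K` such that the
label of the child with the digit `d`, as an element of `K`, is the value of one of them at `d`. -/
def OnGraphs (K : Type) [Field K] (D m b : ℕ) (lab : ℕ → ℕ → ℤ) : Prop :=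
  ∀ i p : ℕ, ∃ f : Fin D → K[X], (∀ s, (f s).natDegree ≤ m) ∧
    ∀ d < b, ∃ s, ((lab i (b * p + d) : ℤ) : K) = (f s).eval (d : K)

/-- the labels `-(i mod k) d`, `d` the last digit of the node -/
def alternating (k b : ℕ) (i q : ℕ) : ℤ := -(((i % k : ℕ) : ℤ) * ((q % b : ℕ) : ℤ))

end Pool.Agent.U685.KU
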