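import Mathlib
import Pool.Agent.U685.KU.Defs

/-!
Words of digits, and their values in base `b`.
-/

set_option autoImplicit false

namespace Pool.Agent.U685.KU

open Finset

/-- the digits of the numbers `a(r) + j r`, `⌊b ^ n r⌋ = q` -/
def zz (b : ℕ) (lab : ℕ → ℕ → ℤ) (n j q : ℕ) : Fin n → ℤ :=
  fun i => lab i.1 (q / b ^ (n - 1 - i.1)) + (j : ℤ) * ((q / b ^ (n - 1 - i.1) % b : ℕ) : ℤ)

lemma lineMax_pos {b : ℕ} (hb : 0 < b) (lab : ℕ → ℕ → ℤ) (j i p : ℕ) : 0 < lineMax b lab j i p := by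
  unfold lineMax
  refine lt_of_lt_of_le ?_ (Finset.le_sup (f := fun d₀ => ((range b).filter fun d =>
    lab i (b * p + d) + (j : ℤ) * (d : ℤ) = lab i (b * p + d₀) + (j : ℤ) * (d₀ : ℤ)).card)
    (mem_range.2 hb))
  exact card_pos.2 ⟨0, mem_filter.2 ⟨mem_range.2 hb, rfl⟩⟩

lemma weights {b : ℕ} (hb : 0 < b) (lab : ℕ → ℕ → ℤ) (j : ℕ) : ∀ (n : ℕ) (z : Fin n → ℤ)
    (T : Finset ℕ), (∀ q ∈ T, q < b ^ n ∧ zz b lab n j q = z) →
    ∑ q ∈ T, ∏ i ∈ range n, ((lineMax b lab j i (q / b ^ (n - i)) : ℝ))⁻¹ ≤ 1 := by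
  classical
  intro n
  induction n with
  | zero =>
    intro z T hT
    have : T.card ≤ 1 := by
      rw [Finset.card_le_one]
      intro q hq q' hq'
      have h1 := (hT q hq).1
      have h2 := (hT q' hq').1
      simp only [pow_zero, Nat.lt_one_iff] at h1 h2
      rw [h1, h2]
    simp only [range_zero, prod_empty, sum_const, nsmul_eq_mul, mul_one]
    exact_mod_cast this
  | succ n ih =>
    intro z T hT
    have hpar : ∀ q : ℕ, ∀ i, i < n + 1 → q / b ^ (n + 1 - i) = q / b / b ^ (n - i) := by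
      intro q i hi
      have : n + 1 - i = (n - i) + 1 := by omega
      rw [this, pow_succ', Nat.div_div_eq_div_mul]
    have hw : ∀ q : ℕ, ∏ i ∈ range (n + 1), ((lineMax b lab j i (q / b ^ (n + 1 - i)) : ℝ))⁻¹ =
        (∏ i ∈ range n, ((lineMax b lab j i (q / b / b ^ (n - i)) : ℝ))⁻¹) *
          ((lineMax b lab j n (q / b) : ℝ))⁻¹ := by
      intro q
      rw [prod_range_succ]
      congr 1
      · refine prod_congr rfl fun i hi => ?_
        rw [hpar q i (by have := mem_range.1 hi; omega)]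
      · rw [hpar q n (by omega), Nat.sub_self, pow_zero, Nat.div_one]
    rw [← sum_fiberwise_of_maps_to (s := T) (t := T.image fun q => q / b) (g := fun q => q / b)
      (fun q hq => mem_image_of_mem _ hq)]
    refine le_trans (sum_le_sum fun p hp => ?_) (ih (Fin.init z) (T.image fun q => q / b) ?_)
    · have h1 : ∑ q ∈ T.filter (fun q => q / b = p),
          ∏ i ∈ range (n + 1), ((lineMax b lab j i (q / b ^ (n + 1 - i)) : ℝ))⁻¹ =
          ∑ q ∈ T.filter (fun q => q / b = p),
          (∏ i ∈ range n, ((lineMax b lab j i (p / b ^ (n - i)) : ℝ))⁻¹) *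
          ((lineMax b lab j n p : ℝ))⁻¹ := by
        refine sum_congr rfl fun q hq => ?_
        rw [hw q, (mem_filter.1 hq).2]
      rw [h1, sum_const, nsmul_eq_mul]
      have hnn : 0 ≤ ∏ i ∈ range n, ((lineMax b lab j i (p / b ^ (n - i)) : ℝ))⁻¹ :=
        prod_nonneg fun i _ => by positivity
      have h2 : ((T.filter fun q => q / b = p).card : ℝ) ≤ lineMax b lab j n p := by
        obtain ⟨q₀, hq₀, hq₀p⟩ := mem_image.1 hp
        have : (T.filter fun q => q / b = p).card ≤ ((range b).filter fun d =>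
            lab n (b * p + d) + (j : ℤ) * (d : ℤ) =
              lab n (b * p + q₀ % b) + (j : ℤ) * ((q₀ % b : ℕ) : ℤ)).card := by
          apply card_le_card_of_injOn (fun q => q % b)
          · intro q hq
            obtain ⟨hq1, hq2⟩ := mem_filter.1 (mem_coe.1 hq)
            have e1 : b * p + q % b = q := by rw [← hq2]; exact Nat.div_add_mod q b
            have e2 : b * p + q₀ % b = q₀ := by rw [← hq₀p]; exact Nat.div_add_mod q₀ b
            have h3 := congrFun ((hT q hq1).2.trans (hT q₀ hq₀).2.symm) (Fin.last n)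
            unfold zz at h3
            simp only [Fin.val_last, Nat.add_sub_cancel, Nat.sub_self, pow_zero, Nat.div_one] at h3
            refine mem_coe.2 (mem_filter.2 ⟨mem_range.2 (Nat.mod_lt _ hb), ?_⟩)
            rw [e1, e2]
            exact h3
          · intro q hq q' hq' h
            have a1 := (mem_filter.1 (mem_coe.1 hq)).2
            have a2 := (mem_filter.1 (mem_coe.1 hq')).2
            have b1 := Nat.div_add_mod q b
            have b2 := Nat.div_add_mod q' b
            simp only at h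
            rw [a1, h] at b1
            rw [a2] at b2
            omega
        refine Nat.cast_le.2 (this.trans ?_)
        unfold lineMax
        exact Finset.le_sup (f := fun d₀ => ((range b).filter fun d =>
          lab n (b * p + d) + (j : ℤ) * (d : ℤ) = lab n (b * p + d₀) + (j : ℤ) * (d₀ : ℤ)).card)
          (mem_range.2 (Nat.mod_lt q₀ hb))
      have h3 : ((T.filter fun q => q / b = p).card : ℝ) * ((lineMax b lab j n p : ℝ))⁻¹ ≤ 1 := by
        rw [← div_eq_mul_inv]
        exact div_le_one_of_le₀ h2 (Nat.cast_nonneg _)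
      calc _ = (∏ i ∈ range n, ((lineMax b lab j i (p / b ^ (n - i)) : ℝ))⁻¹) *
            (((T.filter fun q => q / b = p).card : ℝ) * ((lineMax b lab j n p : ℝ))⁻¹) := by ring
        _ ≤ _ := mul_le_of_le_one_right hnn h3
    · intro p hp
      obtain ⟨q, hq, rfl⟩ := mem_image.1 hp
      obtain ⟨h1, h2⟩ := hT q hq
      refine ⟨Nat.div_lt_of_lt_mul (by rwa [pow_succ'] at h1), ?_⟩
      rw [← h2]
      funext i
      unfold Fin.init zz
      have h3 : n + 1 - 1 - (Fin.castSucc i).1 = (n - 1 - i.1) + 1 := by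
        have := i.2
        simp only [Fin.val_castSucc]
        omega
      rw [h3, pow_succ', ← Nat.div_div_eq_div_mul]
      rfl

lemma count {b n j : ℕ} (hb : 0 < b) {lab : ℕ → ℕ → ℤ} {X : ℝ} (hX : 0 < X) {Q : Finset ℕ}
    (hQ : ∀ q ∈ Q, q < b ^ n)
    (hP : ∀ q ∈ Q, ∏ i ∈ range n, (lineMax b lab j i (q / b ^ (n - i)) : ℝ) ≤ X) :
    (Q.card : ℝ) ≤ X * ((Q.image (zz b lab n j)).card : ℝ) := by
  classical
  rw [card_eq_sum_card_image (zz b lab n j) Q]
  push_cast
  have : ∀ z ∈ Q.image (zz b lab n j), ((Q.filter fun q => zz b lab n j q = z).card : ℝ) ≤ X := by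
    intro z _
    have h1 := weights hb lab j n z (Q.filter fun q => zz b lab n j q = z)
      (fun q hq => ⟨hQ q (mem_filter.1 hq).1, (mem_filter.1 hq).2⟩)
    have h2 : ∑ q ∈ Q.filter (fun q => zz b lab n j q = z), X⁻¹ ≤ 1 := by
      refine (sum_le_sum fun q hq => ?_).trans h1
      rw [prod_inv_distrib]
      apply inv_anti₀
      · exact prod_pos fun i _ => by exact_mod_cast lineMax_pos hb lab j i _
      · exact hP q (mem_filter.1 hq).1
    rw [sum_const, nsmul_eq_mul, ← div_eq_mul_inv, div_le_one hX] at h2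
    exact h2
  refine (sum_le_sum this).trans ?_
  rw [sum_const, nsmul_eq_mul, mul_comm]

/-! ### the number of words with a given value -/

/-- the value of a word in base `b` -/
def val {n : ℕ} (b : ℕ) (z : Fin n → ℤ) : ℤ := ∑ i, z i * (b : ℤ) ^ (n - 1 - i.1)

lemma val_succ {n : ℕ} (b : ℕ) (z : Fin (n + 1) → ℤ) :
    val b z = (b : ℤ) * val b (Fin.init z) + z (Fin.last n) := by
  unfold val
  rw [Fin.sum_univ_castSucc]
  congr 1
  · rw [mul_sum]
    refine sum_congr rfl fun i _ => ?_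
    have : n + 1 - 1 - (Fin.castSucc i).1 = (n - 1 - i.1) + 1 := by
      have := i.2
      simp only [Fin.val_castSucc]
      omega
    rw [this, pow_succ]
    unfold Fin.init
    ring
  · simp

lemma class_card {b Z : ℕ} (hb : 0 < b) (e : ℤ) (C : Finset ℤ)
    (hC : ∀ c ∈ C, |c| ≤ Z ∧ (b : ℤ) ∣ e - c) : C.card ≤ 2 * Z / b + 1 := by
  have hb' : (0 : ℤ) < b := by exact_mod_cast hb
  rw [← card_range (2 * Z / b + 1)]
  apply card_le_card_of_injOn (fun c : ℤ => ((c + (Z : ℤ)) / (b : ℤ)).toNat)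
  · intro c hc
    obtain ⟨h1, -⟩ := hC c hc
    obtain ⟨h2, h3⟩ := abs_le.1 h1
    simp only [coe_range, Set.mem_Iio]
    have h4 : (c + Z) / b ≤ (2 * Z) / b := Int.ediv_le_ediv hb' (by linarith)
    have h5 : ((2 * Z / b : ℕ) : ℤ) = 2 * Z / b := by push_cast; rfl
    have h6 : 0 ≤ (c + Z) / b := Int.ediv_nonneg (by linarith) hb'.le
    zify
    rw [Int.toNat_of_nonneg h6]
    push_cast
    omega
  · intro c hc c' hc' h
    obtain ⟨h1, h1'⟩ := hC c hc
    obtain ⟨h2, h2'⟩ := hC c' hc'
    have a1 : 0 ≤ (c + Z) / b := Int.ediv_nonneg (by linarith [(abs_le.1 h1).1]) hb'.le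
    have a2 : 0 ≤ (c' + Z) / b := Int.ediv_nonneg (by linarith [(abs_le.1 h2).1]) hb'.le
    have h3 : (c + Z) / b = (c' + Z) / b := by
      have := congrArg (fun x : ℕ => (x : ℤ)) h
      simpa [Int.toNat_of_nonneg a1, Int.toNat_of_nonneg a2] using this
    have h4 : (b : ℤ) ∣ c - c' := by
      have := dvd_sub h2' h1'
      have e1 : e - c' - (e - c) = c - c' := by ring
      rwa [e1] at this
    have h5 : (c + Z) % b = (c' + Z) % b := by
      rw [Int.emod_eq_emod_iff_emod_sub_eq_zero]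
      apply Int.emod_eq_zero_of_dvd
      have e1 : c + Z - (c' + Z) = c - c' := by ring
      rwa [e1]
    have h6 := Int.mul_ediv_add_emod (c + Z) b
    have h7 := Int.mul_ediv_add_emod (c' + Z) b
    rw [h3, h5] at h6
    linarith

lemma fibre {b Z : ℕ} (hb : 0 < b) (n : ℕ) : ∀ (e : ℤ) (T : Finset (Fin n → ℤ)),
    (∀ z ∈ T, (∀ i, |z i| ≤ Z) ∧ val b z = e) → T.card ≤ (2 * Z / b + 1) ^ n := by
  classical
  induction n with
  | zero =>
    intro e T _
    rw [pow_zero]
    exact Finset.card_le_one.2 fun z _ w _ => funext fun i => i.elim0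
  | succ n ih =>
    intro e T hT
    rw [pow_succ]
    refine (card_le_mul_card_image (f := fun z : Fin (n + 1) → ℤ => z (Fin.last n)) T
      ((2 * Z / b + 1) ^ n) ?_).trans (Nat.mul_le_mul le_rfl ?_)
    · intro c hc
      obtain ⟨z₀, hz₀, hz₀c⟩ := mem_image.1 hc
      have hinj : Set.InjOn (Fin.init : (Fin (n + 1) → ℤ) → (Fin n → ℤ))
          (T.filter fun z => z (Fin.last n) = c : Finset (Fin (n + 1) → ℤ)) := by
        intro z hz w hw h
        have hz1 := (mem_filter.1 (mem_coe.1 hz)).2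
        have hw1 := (mem_filter.1 (mem_coe.1 hw)).2
        rw [← Fin.snoc_init_self z, ← Fin.snoc_init_self w, h, hz1, hw1]
      rw [← card_image_of_injOn hinj]
      refine ih ((e - c) / b) _ ?_
      intro y hy
      obtain ⟨z, hz, rfl⟩ := mem_image.1 hy
      obtain ⟨hz1, hz2⟩ := mem_filter.1 hz
      obtain ⟨h1, h2⟩ := hT z hz1
      refine ⟨fun i => h1 _, ?_⟩
      rw [val_succ, hz2] at h2
      have : e - c = (b : ℤ) * val b (Fin.init z) := by linarith
      rw [this, Int.mul_ediv_cancel_left _ (by exact_mod_cast hb.ne')]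
    · refine class_card hb e _ ?_
      intro c hc
      obtain ⟨z, hz, rfl⟩ := mem_image.1 hc
      obtain ⟨h1, h2⟩ := hT z hz
      refine ⟨h1 _, ?_⟩
      rw [val_succ] at h2
      exact ⟨val b (Fin.init z), by linarith⟩

lemma window {b Z : ℕ} (hb : 0 < b) (n c : ℕ) (y : ℤ) (T : Finset (Fin n → ℤ))
    (hT : ∀ z ∈ T, (∀ i, |z i| ≤ Z) ∧ |val b z - y| ≤ c) :
    T.card ≤ (2 * Z / b + 1) ^ n * (2 * c + 1) := by
  classical
  refine (card_le_mul_card_image (f := fun z : Fin n → ℤ => val b z) T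
      ((2 * Z / b + 1) ^ n) ?_).trans (Nat.mul_le_mul le_rfl ?_)
  · intro e _
    refine fibre hb n e _ ?_
    intro z hz
    obtain ⟨h1, h2⟩ := mem_filter.1 hz
    exact ⟨(hT z h1).1, h2⟩
  · have : (Icc (y - c) (y + c)).card = 2 * c + 1 := by
      rw [Int.card_Icc]
      omega
    rw [← this]
    refine card_le_card fun e he => ?_
    obtain ⟨z, hz, rfl⟩ := mem_image.1 he
    have h1 := abs_le.1 (hT z hz).2
    rw [mem_Icc]
    constructor <;> linarith

end Pool.Agent.U685.KU
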