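import Mathlib
import Pool.Agent.U685.KU.Comb

/-!
Coverings of sets with progressions whose first terms are given by labelled trees.
-/

set_option autoImplicit false

namespace Pool.Agent.U685.KU

open Finset

lemma geo {b : ℕ} (hb : 2 ≤ b) (n : ℕ) (L : ℝ) :
    HasSum (fun i : ℕ => L / (b : ℝ) ^ (i + n + 1)) (L / ((b : ℝ) ^ n * (b - 1))) := by
  have hb1 : (2 : ℝ) ≤ b := by exact_mod_cast hb
  have h := hasSum_geometric_of_lt_one (r := (b : ℝ)⁻¹) (by positivity)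
    (inv_lt_one_of_one_lt₀ (by linarith))
  have h2 := h.mul_left (L / (b : ℝ) ^ (n + 1))
  have hb0 : (b : ℝ) ≠ 0 := by linarith
  have hb2 : (b : ℝ) - 1 ≠ 0 := by linarith
  have e1 : L / (b : ℝ) ^ (n + 1) * (1 - (b : ℝ)⁻¹)⁻¹ = L / ((b : ℝ) ^ n * (b - 1)) := by
    have : 1 - (b : ℝ)⁻¹ = ((b : ℝ) - 1) / b := by field_simp
    rw [this, pow_succ, inv_div]
    field_simp
  have e2 : (fun i : ℕ => L / (b : ℝ) ^ (n + 1) * ((b : ℝ)⁻¹) ^ i) =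
      fun i : ℕ => L / (b : ℝ) ^ (i + n + 1) := by
    funext i
    rw [show i + n + 1 = (n + 1) + i by ring, pow_add, inv_pow]
    field_simp
    ring
  rw [e1, e2] at h2
  exact h2

lemma tail {b L : ℕ} (hb : 2 ≤ b) {lab : ℕ → ℕ → ℤ} (hL : ∀ i q, |lab i q| ≤ L) (r : ℝ) (n : ℕ) :
    |first b lab r - ∑ i ∈ range n, (lab i ⌊(b : ℝ) ^ (i + 1) * r⌋₊ : ℝ) / (b : ℝ) ^ (i + 1)| ≤
      L / (b : ℝ) ^ n := by
  have hb1 : (2 : ℝ) ≤ b := by exact_mod_cast hb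
  have hL0 : (0 : ℝ) ≤ L := Nat.cast_nonneg _
  obtain ⟨c, hc⟩ : ∃ c : ℕ → ℝ, c = fun i => (lab i ⌊(b : ℝ) ^ (i + 1) * r⌋₊ : ℝ) /
    (b : ℝ) ^ (i + 1) := ⟨_, rfl⟩
  have hbd : ∀ n i : ℕ, ‖c (i + n)‖ ≤ L / (b : ℝ) ^ (i + n + 1) := by
    intro n i
    rw [hc, Real.norm_eq_abs, abs_div, abs_of_pos (by positivity : (0 : ℝ) < (b : ℝ) ^ (i + n + 1))]
    gcongr
    have := hL (i + n) ⌊(b : ℝ) ^ (i + n + 1) * r⌋₊
    exact_mod_cast this
  have hs : Summable c := by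
    have := (geo hb 0 L).summable
    exact Summable.of_norm_bounded this (fun i => by simpa using hbd 0 i)
  have h1 := hs.sum_add_tsum_nat_add n
  have h2 := tsum_of_norm_bounded (geo hb n L) (hbd n)
  have h3 : first b lab r = ∑' i, c i := by rw [hc]; rfl
  have h4 : ∑ i ∈ range n, (lab i ⌊(b : ℝ) ^ (i + 1) * r⌋₊ : ℝ) / (b : ℝ) ^ (i + 1) =
      ∑ i ∈ range n, c i := by rw [hc]
  rw [h3, h4, ← h1, add_sub_cancel_left]
  refine le_trans (by simpa using h2) ?_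
  refine div_le_div_of_nonneg_left hL0 (by positivity) ?_
  have : (0 : ℝ) < (b : ℝ) ^ n := by positivity
  nlinarith

lemma digits {b : ℕ} (n : ℕ) : ∀ q : ℕ, q < b ^ n →
    val b (fun i : Fin n => ((q / b ^ (n - 1 - i.1) % b : ℕ) : ℤ)) = q := by
  induction n with
  | zero =>
    intro q hq
    have : q = 0 := by simpa using hq
    subst this
    simp [val]
  | succ n ih =>
    intro q hq
    rw [val_succ]
    have h1 : Fin.init (fun i : Fin (n + 1) => ((q / b ^ (n + 1 - 1 - i.1) % b : ℕ) : ℤ)) =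
        fun i : Fin n => ((q / b / b ^ (n - 1 - i.1) % b : ℕ) : ℤ) := by
      funext i
      have h2 : n + 1 - 1 - (Fin.castSucc i).1 = (n - 1 - i.1) + 1 := by
        have := i.2
        simp only [Fin.val_castSucc]
        omega
      show ((q / b ^ (n + 1 - 1 - (Fin.castSucc i).1) % b : ℕ) : ℤ) = _
      rw [h2, pow_succ', ← Nat.div_div_eq_div_mul]
    rw [h1, ih (q / b) (Nat.div_lt_of_lt_mul (by rwa [pow_succ'] at hq))]
    simp only [Fin.val_last, Nat.add_sub_cancel, Nat.sub_self, pow_zero, Nat.div_one]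
    exact_mod_cast Nat.div_add_mod q b

lemma val_zz {b n : ℕ} (lab : ℕ → ℕ → ℤ) (j : ℕ) {q : ℕ} (hq : q < b ^ n) :
    val b (zz b lab n j q) = ∑ i : Fin n, lab i.1 (q / b ^ (n - 1 - i.1)) * (b : ℤ) ^ (n - 1 - i.1) +
      j * q := by
  have h := digits n q hq
  unfold val at h ⊢
  unfold zz
  simp only [add_mul, sum_add_distrib]
  congr 1
  rw [← h, mul_sum]
  exact sum_congr rfl fun i _ => by ring

lemma approx {b L : ℕ} (hb : 2 ≤ b) {lab : ℕ → ℕ → ℤ} (hL : ∀ i q, |lab i q| ≤ L) {r : ℝ}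
    (hr : 0 ≤ r) (hr1 : r < 1) (n j : ℕ) :
    ⌊(b : ℝ) ^ n * r⌋₊ < b ^ n ∧
    |(b : ℝ) ^ n * (first b lab r + j * r) - (val b (zz b lab n j ⌊(b : ℝ) ^ n * r⌋₊) : ℝ)| ≤
      L + j := by
  have hb1 : (2 : ℝ) ≤ b := by exact_mod_cast hb
  have hbn : (0 : ℝ) < (b : ℝ) ^ n := by positivity
  obtain ⟨q, hq⟩ : ∃ q, q = ⌊(b : ℝ) ^ n * r⌋₊ := ⟨_, rfl⟩
  have hq1 : (q : ℝ) ≤ (b : ℝ) ^ n * r := by rw [hq]; exact Nat.floor_le (by positivity)
  have hq2 : (b : ℝ) ^ n * r < q + 1 := by rw [hq]; exact Nat.lt_floor_add_one _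
  have hqb : q < b ^ n := by
    have : (q : ℝ) < (b : ℝ) ^ n := lt_of_le_of_lt hq1 (by nlinarith)
    exact_mod_cast this
  rw [← hq]
  refine ⟨hqb, ?_⟩
  rw [val_zz lab j hqb]
  have h1 := tail hb hL r n
  have h2 : ∀ i ∈ range n, ⌊(b : ℝ) ^ (i + 1) * r⌋₊ = q / b ^ (n - 1 - i) := by
    intro i hi
    have hi := mem_range.1 hi
    have e : (b : ℝ) ^ (i + 1) * r = ((b : ℝ) ^ n * r) / ((b ^ (n - 1 - i) : ℕ) : ℝ) := by
      have : (b : ℝ) ^ n = (b : ℝ) ^ (i + 1) * (b : ℝ) ^ (n - 1 - i) := by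
        rw [← pow_add]; congr 1; omega
      rw [this]
      push_cast
      field_simp
    rw [e, Nat.floor_div_natCast, ← hq]
  have h3 : (b : ℝ) ^ n * ∑ i ∈ range n, (lab i ⌊(b : ℝ) ^ (i + 1) * r⌋₊ : ℝ) / (b : ℝ) ^ (i + 1) =
      ((∑ i : Fin n, lab i.1 (q / b ^ (n - 1 - i.1)) * (b : ℤ) ^ (n - 1 - i.1) : ℤ) : ℝ) := by
    rw [Fin.sum_univ_eq_sum_range (fun i => lab i (q / b ^ (n - 1 - i)) * (b : ℤ) ^ (n - 1 - i)) n]
    push_cast
    rw [mul_sum]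
    refine sum_congr rfl fun i hi => ?_
    rw [h2 i hi]
    have hi := mem_range.1 hi
    have : (b : ℝ) ^ n = (b : ℝ) ^ (i + 1) * (b : ℝ) ^ (n - 1 - i) := by
      rw [← pow_add]; congr 1; omega
    rw [this]
    field_simp
  obtain ⟨X, hX⟩ : ∃ X : ℤ, X = ∑ i : Fin n, lab i.1 (q / b ^ (n - 1 - i.1)) *
    (b : ℤ) ^ (n - 1 - i.1) := ⟨_, rfl⟩
  obtain ⟨Y, hY⟩ : ∃ Y : ℝ, Y = ∑ i ∈ range n, (lab i ⌊(b : ℝ) ^ (i + 1) * r⌋₊ : ℝ) /
    (b : ℝ) ^ (i + 1) := ⟨_, rfl⟩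
  rw [← hX, ← hY] at h3
  rw [← hY] at h1
  rw [← hX]
  push_cast
  rw [← h3]
  have e : (b : ℝ) ^ n * (first b lab r + j * r) - ((b : ℝ) ^ n * Y + j * q) =
      (b : ℝ) ^ n * (first b lab r - Y) + j * ((b : ℝ) ^ n * r - q) := by ring
  rw [e]
  refine (abs_add_le _ _).trans (add_le_add ?_ ?_)
  · rw [abs_mul, abs_of_pos hbn]
    have := mul_le_mul_of_nonneg_left h1 hbn.le
    rwa [mul_div_cancel₀ _ hbn.ne'] at this
  · rw [abs_mul, Nat.abs_cast, abs_of_nonneg (by linarith)]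
    have : (0 : ℝ) ≤ j := Nat.cast_nonneg _
    nlinarith

end Pool.Agent.U685.KU
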