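import Mathlib
import Pool.Agent.U685.KU.Cover

/-!
One scale.
-/

set_option autoImplicit false

namespace Pool.Agent.U685.KU

open Finset

lemma zz_card {b L k n : ℕ} (hb : 2 ≤ b) {lab : ℕ → ℕ → ℤ} (hL : ∀ i q, |lab i q| ≤ L)
    {R B : Set ℝ} (hR : ∀ r ∈ R, 0 ≤ r ∧ r < 1) (hB : Contains k b lab R B) {S : Finset (Set ℝ)}
    (hS : Cov B (1 / (b : ℝ) ^ n) S) {Q : Finset ℕ}
    (hQ : ∀ q ∈ Q, ∃ r ∈ R, ⌊(b : ℝ) ^ n * r⌋₊ = q) {j : ℕ} (hj : j < k) :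
    (Q.image (zz b lab n j)).card ≤
      (2 * (L + k * b) / b + 1) ^ n * (2 * (2 * (L + k) + 1) + 1) * S.card := by
  classical
  have hb1 : (2 : ℝ) ≤ b := by exact_mod_cast hb
  have hbn : (0 : ℝ) < (b : ℝ) ^ n := by positivity
  -- a node, a difference and a member of the cover for each word
  have hch : ∀ z : Fin n → ℤ, ∃ (q : ℕ) (r : ℝ) (Y : Set ℝ), z ∈ Q.image (zz b lab n j) →
      q < b ^ n ∧ r ∈ R ∧ ⌊(b : ℝ) ^ n * r⌋₊ = q ∧ zz b lab n j q = z ∧ Y ∈ S ∧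
        first b lab r + j * r ∈ Y := by
    intro z
    by_cases hz : z ∈ Q.image (zz b lab n j)
    · obtain ⟨q, hq, hqz⟩ := mem_image.1 hz
      obtain ⟨r, hr, hrq⟩ := hQ q hq
      obtain ⟨Y, hY, hxY⟩ := hS.2 _ (hB r hr j hj)
      have := (approx hb hL (hR r hr).1 (hR r hr).2 n j).1
      rw [hrq] at this
      exact ⟨q, r, Y, fun _ => ⟨this, hr, hrq, hqz, hY, hxY⟩⟩
    · exact ⟨0, 0, ∅, fun h => absurd h hz⟩
  choose q r Y hqrY using hch
  refine card_le_mul_card_image_of_maps_to (f := Y) (fun z hz => (hqrY z hz).2.2.2.2.1) _ ?_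
  intro Y₀ _
  rcases ((Q.image (zz b lab n j)).filter fun z => Y z = Y₀).eq_empty_or_nonempty with he | ⟨z₀, hz₀⟩
  · rw [he]; simp
  obtain ⟨hz₀1, hz₀2⟩ := mem_filter.1 hz₀
  refine window (by omega) n (2 * (L + k) + 1) (val b z₀) _ ?_
  intro z hz
  obtain ⟨hz1, hz2⟩ := mem_filter.1 hz
  have hq := hqrY z hz1
  have hq₀ := hqrY z₀ hz₀1
  constructor
  · intro i
    rw [← hq.2.2.2.1]
    unfold zz
    refine (abs_add_le _ _).trans ?_
    have h1 := hL i.1 (q z / b ^ (n - 1 - i.1))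
    have h2 : q z / b ^ (n - 1 - i.1) % b < b := Nat.mod_lt _ (by omega)
    have h3 : |(j : ℤ) * ((q z / b ^ (n - 1 - i.1) % b : ℕ) : ℤ)| ≤ (k : ℤ) * b := by
      rw [abs_of_nonneg (by positivity)]
      have a1 : ((q z / b ^ (n - 1 - i.1) % b : ℕ) : ℤ) ≤ b := by exact_mod_cast h2.le
      have a2 : (j : ℤ) ≤ k := by exact_mod_cast hj.le
      exact mul_le_mul a2 a1 (by positivity) (by positivity)
    push_cast at h3 ⊢
    linarith
  · have a := (approx hb hL (hR _ hq.2.1).1 (hR _ hq.2.1).2 n j).2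
    have a₀ := (approx hb hL (hR _ hq₀.2.1).1 (hR _ hq₀.2.1).2 n j).2
    rw [hq.2.2.1, hq.2.2.2.1] at a
    rw [hq₀.2.2.1, hq₀.2.2.2.1] at a₀
    have hd : |first b lab (r z) + j * r z - (first b lab (r z₀) + j * r z₀)| ≤
        1 / (b : ℝ) ^ n := by
      refine hS.1 (Y z) hq.2.2.2.2.1 _ hq.2.2.2.2.2 _ ?_
      rw [hz2, ← hz₀2]
      exact hq₀.2.2.2.2.2
    obtain ⟨x, hx⟩ : ∃ x, x = first b lab (r z) + j * r z := ⟨_, rfl⟩
    obtain ⟨x₀, hx₀⟩ : ∃ x, x = first b lab (r z₀) + j * r z₀ := ⟨_, rfl⟩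
    rw [← hx] at a hd
    rw [← hx₀] at a₀ hd
    have hd' : |(b : ℝ) ^ n * x - (b : ℝ) ^ n * x₀| ≤ 1 := by
      rw [← mul_sub, abs_mul, abs_of_pos hbn]
      have := mul_le_mul_of_nonneg_left hd hbn.le
      rwa [mul_one_div_cancel hbn.ne'] at this
    have hjk : (j : ℝ) ≤ k := by exact_mod_cast hj.le
    have : |((val b z - val b z₀ : ℤ) : ℝ)| ≤ ((2 * (L + k) + 1 : ℕ) : ℝ) := by
      push_cast
      have b1 := abs_le.1 a
      have b2 := abs_le.1 a₀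
      have b3 := abs_le.1 hd'
      rw [abs_le]
      constructor <;> linarith [b1.1, b1.2, b2.1, b2.2, b3.1, b3.2]
    exact_mod_cast this

/-- one scale -/
theorem scale {b L k n : ℕ} (hb : 2 ≤ b) (hk : 1 ≤ k) {lab : ℕ → ℕ → ℤ} (hL : ∀ i q, |lab i q| ≤ L)
    {R B : Set ℝ} (hR : ∀ r ∈ R, 0 ≤ r ∧ r < 1) {A τ : ℝ} (hA : 1 ≤ A)
    (hlin : LinesBounded k b lab A τ R) (hB : Contains k b lab R B) {S : Finset (Set ℝ)}
    (hS : Cov B (1 / (b : ℝ) ^ n) S) {Q : Finset ℕ}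
    (hQ : ∀ q ∈ Q, ∃ r ∈ R, ⌊(b : ℝ) ^ n * r⌋₊ = q) :
    (Q.card : ℝ) ≤ k * ((A * (b : ℝ) ^ (τ * n)) *
      (((2 * (L + k * b) / b + 1) ^ n * (2 * (2 * (L + k) + 1) + 1) * S.card : ℕ) : ℝ)) := by
  classical
  have hb1 : (2 : ℝ) ≤ b := by exact_mod_cast hb
  have hb0 : (0 : ℝ) < b := by linarith
  have hQ' : ∀ q ∈ Q, q < b ^ n := by
    intro q hq
    obtain ⟨r, hr, rfl⟩ := hQ q hq
    exact (approx hb hL (hR r hr).1 (hR r hr).2 n 0).1
  obtain ⟨X, hXdef⟩ : ∃ X : ℝ, X = A * (b : ℝ) ^ (τ * n) := ⟨_, rfl⟩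
  have hX : 0 < X := by rw [hXdef]; positivity
  rw [← hXdef]
  -- a good slope for each node
  have hgood : ∀ q ∈ Q, ∃ j ∈ range k,
      ∏ i ∈ range n, (lineMax b lab j i (q / b ^ (n - i)) : ℝ) ≤ X := by
    intro q hq
    obtain ⟨r, hr, hrq⟩ := hQ q hq
    by_contra hcon
    push Not at hcon
    have h1 := hlin r hr n
    rw [prod_comm] at h1
    have h2 : ∏ j ∈ range k, ∏ i ∈ range n, (lineMax b lab j i ⌊(b : ℝ) ^ i * r⌋₊ : ℝ) =
        ∏ j ∈ range k, ∏ i ∈ range n, (lineMax b lab j i (q / b ^ (n - i)) : ℝ) := by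
      refine prod_congr rfl fun j _ => prod_congr rfl fun i hi => ?_
      have hi := mem_range.1 hi
      have e : (b : ℝ) ^ i * r = ((b : ℝ) ^ n * r) / ((b ^ (n - i) : ℕ) : ℝ) := by
        have : (b : ℝ) ^ n = (b : ℝ) ^ i * (b : ℝ) ^ (n - i) := by
          rw [← pow_add]; congr 1; omega
        rw [this]
        push_cast
        field_simp
      rw [e, Nat.floor_div_natCast, hrq]
    rw [h2] at h1
    have h3 : ∏ _j ∈ range k, X <
        ∏ j ∈ range k, ∏ i ∈ range n, (lineMax b lab j i (q / b ^ (n - i)) : ℝ) :=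
      prod_lt_prod_of_nonempty (fun _ _ => hX) hcon ⟨0, mem_range.2 hk⟩
    rw [prod_const, card_range] at h3
    have h4 : A * (b : ℝ) ^ (τ * k * n) ≤ X ^ k := by
      rw [hXdef, mul_pow, ← Real.rpow_natCast ((b : ℝ) ^ (τ * n)) k, ← Real.rpow_mul hb0.le,
        show τ * (n : ℝ) * (k : ℝ) = τ * k * n by ring]
      refine mul_le_mul_of_nonneg_right ?_ (by positivity)
      calc A = A ^ 1 := (pow_one A).symm
        _ ≤ A ^ k := pow_le_pow_right₀ hA hk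
    linarith
  have hsub : Q ⊆ (range k).biUnion fun j => Q.filter fun q =>
      ∏ i ∈ range n, (lineMax b lab j i (q / b ^ (n - i)) : ℝ) ≤ X := by
    intro q hq
    obtain ⟨j, hj, h⟩ := hgood q hq
    exact mem_biUnion.2 ⟨j, hj, mem_filter.2 ⟨hq, h⟩⟩
  have h5 : (Q.card : ℝ) ≤ ∑ j ∈ range k, ((Q.filter fun q =>
      ∏ i ∈ range n, (lineMax b lab j i (q / b ^ (n - i)) : ℝ) ≤ X).card : ℝ) := by
    exact_mod_cast (card_le_card hsub).trans card_biUnion_le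
  refine h5.trans ?_
  have h6 : ∀ j ∈ range k, ((Q.filter fun q =>
      ∏ i ∈ range n, (lineMax b lab j i (q / b ^ (n - i)) : ℝ) ≤ X).card : ℝ) ≤
      X * (((2 * (L + k * b) / b + 1) ^ n * (2 * (2 * (L + k) + 1) + 1) * S.card : ℕ) : ℝ) := by
    intro j hj
    refine (count (by omega) hX (fun q hq => hQ' q (mem_filter.1 hq).1)
      (fun q hq => (mem_filter.1 hq).2)).trans ?_
    refine mul_le_mul_of_nonneg_left (Nat.cast_le.2 ?_) hX.le
    exact zz_card hb hL hR hB hS (fun q hq => hQ q (mem_filter.1 hq).1) (mem_range.1 hj)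
  refine (sum_le_sum h6).trans (le_of_eq ?_)
  rw [sum_const, card_range, nsmul_eq_mul]

end Pool.Agent.U685.KU
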