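import Mathlib
import Pool.Agent.U685.KU.Scale

/-!
All scales.
-/

set_option autoImplicit false

namespace Pool.Agent.U685.KU

open Finset MeasureTheory

open Classical in
/-- the nodes of level `n` that meet `R` -/
noncomputable def cel (b n : ℕ) (R : Set ℝ) : Finset ℕ :=
  (range (b ^ n)).filter fun q => ∃ r ∈ R, ⌊(b : ℝ) ^ n * r⌋₊ = q

lemma floor_lt {b : ℕ} (hb : 2 ≤ b) {r : ℝ} (hr : 0 ≤ r) (hr1 : r < 1) (n : ℕ) :
    ⌊(b : ℝ) ^ n * r⌋₊ < b ^ n := by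
  have hb1 : (2 : ℝ) ≤ b := by exact_mod_cast hb
  have hbn : (0 : ℝ) < (b : ℝ) ^ n := by positivity
  rw [Nat.floor_lt (by positivity)]
  push_cast
  nlinarith

lemma cel_succ {b : ℕ} (hb : 2 ≤ b) (n : ℕ) {R : Set ℝ} (hR : ∀ r ∈ R, 0 ≤ r ∧ r < 1) :
    (cel b (n + 1) R).card ≤ b * (cel b n R).card := by
  classical
  refine card_le_mul_card_image_of_maps_to (f := fun q => q / b) ?_ _ ?_
  · intro q hq
    obtain ⟨hq1, r, hr, hrq⟩ := mem_filter.1 hq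
    have h1 : ⌊(b : ℝ) ^ n * r⌋₊ = q / b := by
      have e : (b : ℝ) ^ n * r = ((b : ℝ) ^ (n + 1) * r) / (b : ℕ) := by
        have : (b : ℝ) ≠ 0 := by
          have : (2 : ℝ) ≤ b := by exact_mod_cast hb
          linarith
        rw [pow_succ]
        field_simp
      rw [e, Nat.floor_div_natCast, hrq]
    refine mem_filter.2 ⟨mem_range.2 ?_, r, hr, h1⟩
    rw [← h1]
    exact floor_lt hb (hR r hr).1 (hR r hr).2 n
  · intro p _
    have : (Ico (b * p) (b * p + b)).card = b := by simp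
    conv_rhs => rw [← this]
    refine card_le_card fun q hq => ?_
    have h := (mem_filter.1 hq).2
    rw [mem_Ico]
    have h1 := Nat.div_add_mod q b
    have h2 := Nat.mod_lt q (show b > 0 by omega)
    rw [h] at h1
    omega

theorem dim {ε : ℝ} (hε : 0 < ε) {k : ℕ} (hk : 1 ≤ k) :
    ∃ b₀ : ℕ, ∀ b : ℕ, b₀ ≤ b → 2 ≤ b ∧ ∀ L : ℕ, (L : ℝ) ≤ (b : ℝ) ^ (1 + ε / 2) →
      ∀ A : ℝ, 1 ≤ A → ∀ lab : ℕ → ℕ → ℤ, (∀ i q, |lab i q| ≤ L) →
      ∀ τ : ℝ, 0 ≤ τ → ∀ R B : Set ℝ, (∀ r ∈ R, 0 ≤ r ∧ r < 1) → LinesBounded k b lab A τ R →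
        Contains k b lab R B →
        ∀ δ : ℝ, 0 < δ → δ < 1 → ∀ S : Finset (Set ℝ), Cov B δ S →
          ∃ S' : Finset (Set ℝ), Cov R δ S' ∧
            (S'.card : ℝ) ≤ b * (k * A * (2 * (2 * (L + k) + 1) + 1)) * δ ^ (-(τ + ε)) * S.card := by
  classical
  obtain ⟨b₁, hb₁⟩ := exists_nat_ge (((2 * k + 3 : ℕ) : ℝ) ^ (2 / ε))
  refine ⟨max 2 b₁, fun b hb => ⟨(le_max_left _ _).trans hb, ?_⟩⟩
  have hb2 : 2 ≤ b := (le_max_left _ _).trans hb
  intro L hL A hA lab hlab τ hτ R B hR hlin hB δ hδ hδ1 S hS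
  have hbr : (2 : ℝ) ≤ b := by exact_mod_cast hb2
  have hb0 : (0 : ℝ) < b := by linarith
  have hk3 : ((2 * k + 3 : ℕ) : ℝ) ≤ (b : ℝ) ^ (ε / 2) := by
    have h1 : ((2 * k + 3 : ℕ) : ℝ) ^ (2 / ε) ≤ b :=
      hb₁.trans (by exact_mod_cast (le_max_right _ _).trans hb)
    have h2 := Real.rpow_le_rpow (by positivity) h1 (show 0 ≤ ε / 2 by positivity)
    rw [← Real.rpow_mul (by positivity), show 2 / ε * (ε / 2) = 1 by field_simp, Real.rpow_one] at h2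
    exact h2
  -- the loss from the carries
  obtain ⟨K, hKdef⟩ : ∃ K : ℕ, K = 2 * (L + k * b) / b + 1 := ⟨_, rfl⟩
  have hK : (K : ℝ) ≤ (b : ℝ) ^ ε := by
    have h1 : ((2 * (L + k * b) / b : ℕ) : ℝ) ≤ (2 * (L + k * b) : ℕ) / (b : ℝ) := Nat.cast_div_le
    have h2 : ((2 * (L + k * b) : ℕ) : ℝ) / b = 2 * (L / b) + 2 * k := by
      push_cast
      field_simp
    have h3 : (L : ℝ) / b ≤ (b : ℝ) ^ (ε / 2) := by
      rw [div_le_iff₀ hb0]
      refine hL.trans (le_of_eq ?_)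
      rw [Real.rpow_add hb0, Real.rpow_one, mul_comm]
    have h4 : (1 : ℝ) ≤ (b : ℝ) ^ (ε / 2) := Real.one_le_rpow (by linarith) (by positivity)
    have h5 : (b : ℝ) ^ ε = (b : ℝ) ^ (ε / 2) * (b : ℝ) ^ (ε / 2) := by
      rw [← Real.rpow_add hb0]; congr 1; ring
    rw [hKdef, h5]
    push_cast at h1 hk3 ⊢
    have h6 : 2 * (b : ℝ) ^ (ε / 2) + 2 * k + 1 ≤ (2 * k + 3) * (b : ℝ) ^ (ε / 2) := by
      have : (0 : ℝ) ≤ k := Nat.cast_nonneg _
      nlinarith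
    have h7 : (2 * (k : ℝ) + 3) * (b : ℝ) ^ (ε / 2) ≤ (b : ℝ) ^ (ε / 2) * (b : ℝ) ^ (ε / 2) :=
      mul_le_mul_of_nonneg_right hk3 (by positivity)
    push_cast at h2
    linarith
  -- the level
  obtain ⟨n, hn1, hn2⟩ := exists_nat_pow_near (x := 1 / δ) (y := (b : ℝ))
    (by rw [le_div_iff₀ hδ]; linarith) (by linarith)
  have hbn : (0 : ℝ) < (b : ℝ) ^ n := by positivity
  have hδn : δ ≤ 1 / (b : ℝ) ^ n := by
    rw [le_div_iff₀ hbn]
    rw [le_div_iff₀ hδ] at hn1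
    linarith
  have hS' : Cov B (1 / (b : ℝ) ^ n) S := ⟨fun Y hY x hx y hy => (hS.1 Y hY x hx y hy).trans hδn, hS.2⟩
  have h1 := scale hb2 hk hlab hR hA hlin hB hS' (Q := cel b n R) (fun q hq => (mem_filter.1 hq).2)
  rw [← hKdef] at h1
  obtain ⟨D, hD⟩ : ∃ D : ℕ, D = 2 * (2 * (L + k) + 1) + 1 := ⟨_, rfl⟩
  rw [← hD] at h1
  have h4 : ((cel b n R).card : ℝ) ≤ k * A * D * δ ^ (-(τ + ε)) * S.card := by
    have a0 : (b : ℝ) ^ (τ * n) * (K : ℝ) ^ n ≤ δ ^ (-(τ + ε)) := by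
      have a1 : (K : ℝ) ^ n ≤ (b : ℝ) ^ (ε * n) := by
        refine (pow_le_pow_left₀ (Nat.cast_nonneg K) hK n).trans (le_of_eq ?_)
        rw [← Real.rpow_natCast, ← Real.rpow_mul hb0.le]
      have a2 : (b : ℝ) ^ (τ * n) * (b : ℝ) ^ (ε * n) = ((b : ℝ) ^ n) ^ (τ + ε) := by
        rw [← Real.rpow_add hb0, ← Real.rpow_natCast, ← Real.rpow_mul hb0.le]
        congr 1
        ring
      refine (mul_le_mul_of_nonneg_left a1 (by positivity)).trans ?_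
      rw [a2, Real.rpow_neg hδ.le, ← Real.inv_rpow hδ.le]
      refine Real.rpow_le_rpow hbn.le ?_ (by positivity)
      rw [one_div] at hn1
      exact hn1
    refine h1.trans ?_
    push_cast
    calc (k : ℝ) * (A * (b : ℝ) ^ (τ * n) * ((K : ℝ) ^ n * D * S.card)) =
          (k * A * D * S.card) * ((b : ℝ) ^ (τ * n) * (K : ℝ) ^ n) := by ring
      _ ≤ (k * A * D * S.card) * δ ^ (-(τ + ε)) :=
          mul_le_mul_of_nonneg_left a0 (by positivity)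
      _ = _ := by ring
  -- the cover
  obtain ⟨I, hI⟩ : ∃ I : ℕ → Set ℝ, I = fun q => {x | 0 ≤ x ∧ ⌊(b : ℝ) ^ (n + 1) * x⌋₊ = q} :=
    ⟨_, rfl⟩
  have hbn1 : (0 : ℝ) < (b : ℝ) ^ (n + 1) := by positivity
  refine ⟨(cel b (n + 1) R).image I, ⟨?_, ?_⟩, ?_⟩
  · intro Y hY x hx y hy
    obtain ⟨q, -, rfl⟩ := mem_image.1 hY
    rw [hI] at hx hy
    obtain ⟨hx0, hxq⟩ := hx
    obtain ⟨hy0, hyq⟩ := hy
    have c1 := Nat.floor_le (by positivity : 0 ≤ (b : ℝ) ^ (n + 1) * x)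
    have c2 := Nat.lt_floor_add_one ((b : ℝ) ^ (n + 1) * x)
    have c3 := Nat.floor_le (by positivity : 0 ≤ (b : ℝ) ^ (n + 1) * y)
    have c4 := Nat.lt_floor_add_one ((b : ℝ) ^ (n + 1) * y)
    rw [hxq] at c1 c2
    rw [hyq] at c3 c4
    have c5 : |(b : ℝ) ^ (n + 1) * (x - y)| ≤ 1 := by
      rw [mul_sub, abs_le]
      constructor <;> linarith
    rw [abs_mul, abs_of_pos hbn1] at c5
    have c6 : 1 ≤ (b : ℝ) ^ (n + 1) * δ := by
      rw [div_lt_iff₀ hδ] at hn2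
      exact hn2.le
    by_contra hcon
    have := mul_lt_mul_of_pos_left (not_le.1 hcon) hbn1
    linarith
  · intro x hx
    obtain ⟨hx0, hx1⟩ := hR x hx
    refine ⟨I ⌊(b : ℝ) ^ (n + 1) * x⌋₊, mem_image_of_mem _ ?_, ?_⟩
    · exact mem_filter.2 ⟨mem_range.2 (floor_lt hb2 hx0 hx1 _), x, hx, rfl⟩
    · rw [hI]
      exact ⟨hx0, rfl⟩
  · have d1 : (((cel b (n + 1) R).image I).card : ℝ) ≤ b * (cel b n R).card := by
      exact_mod_cast card_image_le.trans (cel_succ hb2 n hR)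
    have d2 : (D : ℝ) = 2 * (2 * (L + k) + 1) + 1 := by rw [hD]; push_cast; rfl
    rw [← d2]
    calc (((cel b (n + 1) R).image I).card : ℝ) ≤ b * (cel b n R).card := d1
      _ ≤ b * (k * A * D * δ ^ (-(τ + ε)) * S.card) := mul_le_mul_of_nonneg_left h4 hb0.le
      _ = _ := by ring

/-- sets of positive outer measure -/
theorem of_cover {ε C : ℝ} (hC : 0 < C) {R B : Set ℝ} (hR : ∀ r ∈ R, 0 ≤ r ∧ r < 1)
    (hpos : volume R ≠ 0)
    (h : ∀ δ : ℝ, 0 < δ → δ < 1 → ∀ S : Finset (Set ℝ), Cov B δ S →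
          ∃ S' : Finset (Set ℝ), Cov R δ S' ∧ (S'.card : ℝ) ≤ C * δ ^ (-ε) * S.card) :
    ∃ c : ℝ, 0 < c ∧ ∀ δ : ℝ, 0 < δ → δ < 1 → ∀ S : Finset (Set ℝ), Cov B δ S →
      c * δ ^ (-(1 - ε)) ≤ S.card := by
  have hfin : volume R ≠ ⊤ := by
    have h1 : R ⊆ Set.Icc 0 1 := fun r hr => ⟨(hR r hr).1, (hR r hr).2.le⟩
    exact ((measure_mono h1).trans_lt (by simp)).ne
  have hv : 0 < (volume R).toReal := ENNReal.toReal_pos hpos hfin
  refine ⟨(volume R).toReal / C, by positivity, fun δ hδ hδ1 S hS => ?_⟩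
  obtain ⟨S', hS', hcard⟩ := h δ hδ hδ1 S hS
  have h1 : volume R ≤ ENNReal.ofReal (S'.card * δ) := by
    have h2 : R ⊆ ⋃ Y ∈ S', Y := fun x hx => by
      obtain ⟨Y, hY, hxY⟩ := hS'.2 x hx
      exact Set.mem_biUnion hY hxY
    refine (measure_mono h2).trans ((measure_biUnion_finset_le _ _).trans ?_)
    refine (Finset.sum_le_card_nsmul _ _ (ENNReal.ofReal δ) fun Y hY => ?_).trans ?_
    · refine (Real.volume_le_diam Y).trans ?_
      refine Metric.ediam_le fun x hx y hy => ?_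
      rw [edist_dist, Real.dist_eq]
      exact ENNReal.ofReal_le_ofReal (hS'.1 Y hY x hx y hy)
    · rw [nsmul_eq_mul, ENNReal.ofReal_mul (Nat.cast_nonneg _), ENNReal.ofReal_natCast]
  have h2 : (volume R).toReal ≤ S'.card * δ := by
    have := ENNReal.toReal_mono ENNReal.ofReal_ne_top h1
    rwa [ENNReal.toReal_ofReal (by positivity)] at this
  have h3 : (volume R).toReal ≤ C * δ ^ (-ε) * S.card * δ :=
    h2.trans (mul_le_mul_of_nonneg_right hcard hδ.le)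
  have h4 : δ ^ (-ε) * δ = (δ ^ (-(1 - ε)))⁻¹ := by
    rw [← Real.rpow_neg hδ.le, neg_neg]
    nth_rewrite 2 [← Real.rpow_one δ]
    rw [← Real.rpow_add hδ]
    congr 1
    ring
  have h5 : 0 < δ ^ (-(1 - ε)) := by positivity
  rw [div_mul_eq_mul_div, div_le_iff₀ hC]
  have h6 : C * δ ^ (-ε) * S.card * δ = C * S.card * (δ ^ (-(1 - ε)))⁻¹ := by
    rw [← h4]; ring
  rw [h6] at h3
  have h7 := mul_le_mul_of_nonneg_right h3 h5.le
  rw [mul_assoc, inv_mul_cancel₀ h5.ne', mul_one] at h7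
  linarith

end Pool.Agent.U685.KU
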