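import Mathlib
import Pool.Agent.U685.KU.Dim

/-!
Labels on the graphs of `D` polynomials of degree at most `m`, chosen for each node.
-/

set_option autoImplicit false

namespace Pool.Agent.U685.KU

open Finset MeasureTheory Polynomial

lemma cast_inj {K : Type} [Field K] {b : ℕ} (hK : ∀ d : ℕ, 0 < d → d < b → (d : K) ≠ 0) {c d : ℕ}
    (hc : c < b) (hd : d < b) (h : (c : K) = (d : K)) : c = d := by
  rcases lt_trichotomy c d with hlt | heq | hgt
  · exfalso
    refine hK (d - c) (by omega) (by omega) ?_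
    rw [Nat.cast_sub hlt.le, h, sub_self]
  · exact heq
  · exfalso
    refine hK (c - d) (by omega) (by omega) ?_
    rw [Nat.cast_sub hgt.le, h, sub_self]

lemma lineMax_le {b : ℕ} {lab : ℕ → ℕ → ℤ} {j i p N : ℕ}
    (h : ∀ u : ℤ, ((range b).filter fun d => lab i (b * p + d) + (j : ℤ) * (d : ℤ) = u).card ≤ N) :
    lineMax b lab j i p ≤ N :=
  Finset.sup_le fun _ _ => h _

lemma graphs_prod {K : Type} [Field K] {D m b k : ℕ} (hD : 1 ≤ D) (hb : 1 ≤ b) (hkb : k ≤ b)
    (hK : ∀ d : ℕ, 0 < d → d < b → (d : K) ≠ 0) {lab : ℕ → ℕ → ℤ} (h : OnGraphs K D m b lab)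
    (i p : ℕ) :
    ∏ j ∈ range k, (lineMax b lab j i p : ℝ) ≤ (b : ℝ) ^ D * ((D * (m + 1) : ℕ) : ℝ) ^ k := by
  classical
  obtain ⟨f, hf, hval⟩ := h i p
  obtain ⟨bad, hbad⟩ : ∃ bad : ℕ → Prop, bad = fun j : ℕ => ∃ s : Fin D, ∃ u : K,
    f s = C u - C (j : K) * X := ⟨_, rfl⟩
  have hE : (1 : ℝ) ≤ ((D * (m + 1) : ℕ) : ℝ) := by
    have : 1 ≤ D * (m + 1) := Nat.mul_pos hD (by omega)
    exact_mod_cast this
  have hb' : (1 : ℝ) ≤ (b : ℝ) := by exact_mod_cast hb
  have hgood : ∀ j, ¬ bad j → lineMax b lab j i p ≤ D * (m + 1) := by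
    intro j hj
    refine lineMax_le fun u => ?_
    obtain ⟨g, hg⟩ : ∃ g : Fin D → K[X], g = fun s => f s + (C (j : K) * X - C (u : K)) := ⟨_, rfl⟩
    have hg0 : ∀ s, g s ≠ 0 := by
      intro s h0
      apply hj
      rw [hbad]
      refine ⟨s, (u : K), ?_⟩
      rw [hg] at h0
      simp only at h0
      linear_combination h0
    have hdeg : ∀ s, (g s).natDegree ≤ m + 1 := by
      intro s
      rw [hg]
      refine (natDegree_add_le _ _).trans (max_le ((hf s).trans (by omega)) ?_)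
      refine (natDegree_sub_le _ _).trans (max_le ?_ ?_)
      · exact (natDegree_C_mul_le _ _).trans (natDegree_X_le.trans (by omega))
      · rw [natDegree_C]; omega
    have hcard : (univ.biUnion fun s : Fin D => (g s).roots.toFinset).card ≤ D * (m + 1) := by
      refine card_biUnion_le.trans ?_
      refine (Finset.sum_le_card_nsmul _ _ (m + 1) fun s _ => ?_).trans (by simp)
      exact (Multiset.toFinset_card_le _).trans ((card_roots' (g s)).trans (hdeg s))
    refine le_trans (card_le_card_of_injOn (fun d : ℕ => (d : K)) ?_ ?_) hcard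
    · intro d hd
      obtain ⟨hd1, hd2⟩ := mem_filter.1 (mem_coe.1 hd)
      obtain ⟨s, hs⟩ := hval d (mem_range.1 hd1)
      refine mem_coe.2 (mem_biUnion.2 ⟨s, mem_univ _, ?_⟩)
      rw [Multiset.mem_toFinset, mem_roots (hg0 s), IsRoot.def, hg]
      simp only [eval_add, eval_sub, eval_mul, eval_C, eval_X]
      rw [← hs, ← hd2]
      push_cast
      ring
    · intro c hc d hd hcd
      exact cast_inj hK (mem_range.1 (mem_filter.1 (mem_coe.1 hc)).1)
        (mem_range.1 (mem_filter.1 (mem_coe.1 hd)).1) hcd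
  have hany : ∀ j, lineMax b lab j i p ≤ b := fun j => lineMax_le fun u =>
    (card_filter_le _ _).trans (by simp)
  have hbadcard : ((range k).filter bad).card ≤ D := by
    have hch : ∀ j : ℕ, ∃ s : Fin D, bad j → ∃ u : K, f s = C u - C (j : K) * X := by
      intro j
      by_cases hj : bad j
      · have hj' := hj
        rw [hbad] at hj'
        obtain ⟨s, u, hs⟩ := hj'
        exact ⟨s, fun _ => ⟨u, hs⟩⟩
      · exact ⟨⟨0, hD⟩, fun h => absurd h hj⟩
    choose s hs using hch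
    have : ((range k).filter bad).card ≤ (univ : Finset (Fin D)).card := by
      refine card_le_card_of_injOn s (fun _ _ => mem_coe.2 (mem_univ _)) ?_
      intro j hj j' hj' hjj
      obtain ⟨h1, h2⟩ := mem_filter.1 (mem_coe.1 hj)
      obtain ⟨h1', h2'⟩ := mem_filter.1 (mem_coe.1 hj')
      obtain ⟨u, hu⟩ := hs j h2
      obtain ⟨u', hu'⟩ := hs j' h2'
      rw [hjj, hu'] at hu
      have h3 := congrArg (fun g : K[X] => g.coeff 1) hu
      simp only [coeff_sub, coeff_C, one_ne_zero, if_false, coeff_C_mul, coeff_X_one, mul_one,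
        zero_sub, neg_inj] at h3
      exact (cast_inj hK ((mem_range.1 h1').trans_le hkb) ((mem_range.1 h1).trans_le hkb) h3).symm
    simpa using this
  calc ∏ j ∈ range k, (lineMax b lab j i p : ℝ)
      ≤ ∏ j ∈ range k, ((if bad j then (b : ℝ) else 1) * ((D * (m + 1) : ℕ) : ℝ)) := by
        refine prod_le_prod (fun _ _ => Nat.cast_nonneg _) fun j _ => ?_
        by_cases hj : bad j
        · rw [if_pos hj]
          have : (lineMax b lab j i p : ℝ) ≤ b := by exact_mod_cast hany j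
          nlinarith
        · rw [if_neg hj, one_mul]
          exact_mod_cast hgood j hj
    _ = (b : ℝ) ^ ((range k).filter bad).card * ((D * (m + 1) : ℕ) : ℝ) ^ k := by
        rw [prod_mul_distrib, prod_const, card_range, prod_ite, prod_const, prod_const_one, mul_one]
    _ ≤ _ := by
        refine mul_le_mul_of_nonneg_right ?_ (by positivity)
        exact pow_le_pow_right₀ hb' hbadcard

/-- labels on graphs of polynomials -/
theorem graphs {ε : ℝ} (hε : 0 < ε) {k D : ℕ} (m : ℕ) (hk : 1 ≤ k) (hD : 1 ≤ D) :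
    ∃ b₀ : ℕ, ∀ b : ℕ, b₀ ≤ b → 2 ≤ b ∧ ∀ L : ℕ, (L : ℝ) ≤ (b : ℝ) ^ (1 + ε / 4) →
      ∀ (K : Type) [Field K], (∀ d : ℕ, 0 < d → d < b → (d : K) ≠ 0) →
      ∀ lab : ℕ → ℕ → ℤ, (∀ i q, |lab i q| ≤ L) → OnGraphs K D m b lab →
      ∀ R B : Set ℝ, (∀ r ∈ R, 0 ≤ r ∧ r < 1) → Contains k b lab R B →
        ∀ δ : ℝ, 0 < δ → δ < 1 → ∀ S : Finset (Set ℝ), Cov B δ S →
          ∃ S' : Finset (Set ℝ), Cov R δ S' ∧
            (S'.card : ℝ) ≤ b * (k * 1 * (2 * (2 * (L + k) + 1) + 1)) * δ ^ (-((D : ℝ) / k + ε)) *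
              S.card := by
  classical
  obtain ⟨b₁, hb₁⟩ := dim (show 0 < ε / 2 by positivity) hk
  obtain ⟨E, hE⟩ : ∃ E : ℕ, E = D * (m + 1) := ⟨_, rfl⟩
  obtain ⟨b₂, hb₂⟩ := exists_nat_ge ((E : ℝ) ^ (2 / ε))
  refine ⟨max b₁ (max b₂ k), fun b hb => ?_⟩
  obtain ⟨hb2, h⟩ := hb₁ b ((le_max_left _ _).trans hb)
  refine ⟨hb2, fun L hL K _ hK lab hlab hG R B hR hB => ?_⟩
  have hkb : k ≤ b := ((le_max_right _ _).trans (le_max_right _ _)).trans hb
  have hbr : (2 : ℝ) ≤ b := by exact_mod_cast hb2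
  have hb0 : (0 : ℝ) < b := by linarith
  have hk0 : (0 : ℝ) < k := by exact_mod_cast hk
  have hEb : (E : ℝ) ≤ (b : ℝ) ^ (ε / 2) := by
    have h1 : (E : ℝ) ^ (2 / ε) ≤ b :=
      hb₂.trans (by exact_mod_cast ((le_max_left _ _).trans (le_max_right _ _)).trans hb)
    have h2 := Real.rpow_le_rpow (by positivity) h1 (show 0 ≤ ε / 2 by positivity)
    rw [← Real.rpow_mul (by positivity), show 2 / ε * (ε / 2) = 1 by field_simp, Real.rpow_one] at h2
    exact h2
  have hlin : LinesBounded k b lab 1 ((D : ℝ) / k + ε / 2) R := by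
    intro r _ n
    have h1 : ∀ i ∈ range n, ∏ j ∈ range k, (lineMax b lab j i ⌊(b : ℝ) ^ i * r⌋₊ : ℝ) ≤
        (b : ℝ) ^ (((D : ℝ) / k + ε / 2) * k) := by
      intro i _
      refine (graphs_prod hD (by omega) hkb hK hG i _).trans ?_
      rw [← hE, show ((D : ℝ) / k + ε / 2) * k = D + ε / 2 * k by field_simp,
        Real.rpow_add hb0, Real.rpow_natCast]
      refine mul_le_mul_of_nonneg_left ?_ (by positivity)
      rw [Real.rpow_mul hb0.le, Real.rpow_natCast]
      exact pow_le_pow_left₀ (Nat.cast_nonneg _) hEb k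
    refine (prod_le_prod (fun i _ => prod_nonneg fun j _ => Nat.cast_nonneg _) h1).trans ?_
    rw [prod_const, card_range, one_mul, ← Real.rpow_natCast, ← Real.rpow_mul hb0.le]
  have h3 := h L (by rwa [show 1 + ε / 2 / 2 = 1 + ε / 4 by ring]) 1 le_rfl lab hlab
    ((D : ℝ) / k + ε / 2) (by positivity) R B hR hlin hB
  rwa [show (D : ℝ) / k + ε / 2 + ε / 2 = D / k + ε by ring] at h3

end Pool.Agent.U685.KU
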