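import Mathlib
import Pool.Agent.U685.KU.Graphs

/-!
Linear labels with the slope `-(i mod k)` on the level `i`.
-/

set_option autoImplicit false

namespace Pool.Agent.U685.KU

open Finset MeasureTheory Polynomial

lemma alternating_le {k b : ℕ} (hk : 1 ≤ k) (hb : 1 ≤ b) (i q : ℕ) :
    |alternating k b i q| ≤ ((k * b : ℕ) : ℤ) := by
  unfold alternating
  rw [abs_neg, abs_of_nonneg (by positivity)]
  have h1 : i % k < k := Nat.mod_lt _ (by omega)
  have h2 : q % b < b := Nat.mod_lt _ (by omega)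
  exact_mod_cast Nat.mul_le_mul h1.le h2.le

lemma alternating_graphs (k b : ℕ) : OnGraphs ℚ 1 1 b (alternating k b) := by
  intro i p
  refine ⟨fun _ => C (-((i % k : ℕ) : ℚ)) * X, fun _ => (natDegree_C_mul_le _ _).trans
    natDegree_X_le, fun d hd => ⟨0, ?_⟩⟩
  unfold alternating
  rw [Nat.mul_add_mod, Nat.mod_eq_of_lt hd]
  rw [eval_mul, eval_C, eval_X, Int.cast_neg, Int.cast_mul, Int.cast_natCast, Int.cast_natCast,
    neg_mul]

lemma words_card {k b : ℕ} (hk : 1 ≤ k) (t j : ℕ) (hj : j < k) :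
    ((range (b ^ (k * t))).image (zz b (alternating k b) (k * t) j)).card ≤
      b ^ (k * t - t) := by
  classical
  have hsub : (range (b ^ (k * t))).image (zz b (alternating k b) (k * t) j) ⊆
      Fintype.piFinset fun i : Fin (k * t) => if i.1 % k = j then ({0} : Finset ℤ) else
        (range b).image fun d : ℕ => ((j : ℤ) - (i.1 % k : ℕ)) * (d : ℤ) := by
    intro z hz
    obtain ⟨q, hq, rfl⟩ := mem_image.1 hz
    rw [Fintype.mem_piFinset]
    intro i
    have hb : 0 < b := by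
      rcases Nat.eq_zero_or_pos b with h | h
      · exfalso
        have hlt := mem_range.1 hq
        have : k * t ≠ 0 := by have := i.2; omega
        rw [h, zero_pow this] at hlt
        omega
      · exact h
    have hv : zz b (alternating k b) (k * t) j q i =
        ((j : ℤ) - (i.1 % k : ℕ)) * ((q / b ^ (k * t - 1 - i.1) % b : ℕ) : ℤ) := by
      unfold zz alternating
      ring
    rw [hv]
    by_cases h : i.1 % k = j
    · rw [if_pos h, mem_singleton, h, sub_self, zero_mul]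
    · rw [if_neg h]
      exact mem_image.2 ⟨q / b ^ (k * t - 1 - i.1) % b, mem_range.2 (Nat.mod_lt _ hb), rfl⟩
  refine (card_le_card hsub).trans ?_
  rw [Fintype.card_piFinset]
  have h1 : ∀ i : Fin (k * t), (if i.1 % k = j then ({0} : Finset ℤ) else
        (range b).image fun d : ℕ => ((j : ℤ) - (i.1 % k : ℕ)) * (d : ℤ)).card ≤
      if i.1 % k = j then 1 else b := by
    intro i
    split_ifs with h
    · simp
    · exact card_image_le.trans (by simp)
  refine (prod_le_prod' fun i _ => h1 i).trans ?_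
  rw [Fin.prod_univ_eq_prod_range (fun i => if i % k = j then 1 else b) (k * t), prod_ite,
    prod_const_one, one_mul, prod_const]
  have h2 : ((range (k * t)).filter fun i => i % k = j).card = t := by
    have h3 := Nat.count_modEq_card (b := k * t) (r := k) (by omega) j
    rw [Nat.mul_mod_right, Nat.mul_div_cancel_left t (by omega)] at h3
    simp only [not_lt_zero, if_false, add_zero] at h3
    rw [Nat.count_eq_card_filter_range] at h3
    have h5 : ((range (k * t)).filter fun i => i % k = j) =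
        (range (k * t)).filter fun i => i ≡ j [MOD k] := by
      ext i
      rw [mem_filter, mem_filter]
      unfold Nat.ModEq
      rw [Nat.mod_eq_of_lt hj]
    rw [h5]
    exact h3
  have h4 : ((range (k * t)).filter fun i => ¬ i % k = j) =
      range (k * t) \ (range (k * t)).filter fun i => i % k = j := by
    ext i
    simp only [mem_filter, mem_sdiff]
    tauto
  rw [h4, card_sdiff_of_subset (filter_subset _ _), h2, card_range]

theorem sharp {k b : ℕ} (hk : 1 ≤ k) (hb : 2 ≤ b) :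
    ∃ C : ℝ, 0 < C ∧ ∀ δ : ℝ, 0 < δ → δ < 1 → ∃ S : Finset (Set ℝ),
      Cov {x | ∃ r ∈ Set.Ico (0 : ℝ) 1, ∃ j < k, x = first b (alternating k b) r + j * r} δ S ∧
        (S.card : ℝ) ≤ C * δ ^ (-(1 - 1 / (k : ℝ))) := by
  classical
  have hbr : (2 : ℝ) ≤ b := by exact_mod_cast hb
  have hb0 : (0 : ℝ) < b := by linarith
  have hk0 : (0 : ℝ) < k := by exact_mod_cast hk
  have hk1 : (1 : ℝ) ≤ k := by exact_mod_cast hk
  obtain ⟨M, hM⟩ : ∃ M : ℕ, M = k * b + k := ⟨_, rfl⟩
  have hM1 : (1 : ℝ) ≤ 2 * M := by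
    have : 1 ≤ M := by rw [hM]; omega
    have : (1 : ℝ) ≤ M := by exact_mod_cast this
    linarith
  obtain ⟨y, hy⟩ : ∃ y : ℝ, y = (b : ℝ) ^ k := ⟨_, rfl⟩
  have hy1 : 1 < y := by rw [hy]; exact one_lt_pow₀ (by linarith) (by omega)
  have hy0 : 0 < y := by linarith
  have hexp : 0 ≤ 1 - 1 / (k : ℝ) := by
    rw [sub_nonneg, div_le_one hk0]; exact hk1
  refine ⟨k * (2 * M * y) ^ (1 - 1 / (k : ℝ)), by positivity, fun δ hδ hδ1 => ?_⟩
  obtain ⟨t, ht1, ht2⟩ := exists_nat_pow_near (x := 2 * M / δ) (y := y)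
    (by rw [le_div_iff₀ hδ]; linarith) hy1
  obtain ⟨n, hn⟩ : ∃ n : ℕ, n = k * (t + 1) := ⟨_, rfl⟩
  have hyn : y ^ (t + 1) = (b : ℝ) ^ n := by rw [hy, hn, pow_mul]
  have hbn : (0 : ℝ) < (b : ℝ) ^ n := by positivity
  rw [hyn] at ht2
  refine ⟨(range k).biUnion fun j => ((range (b ^ n)).image (zz b (alternating k b) n j)).image
    fun z => {x : ℝ | |(b : ℝ) ^ n * x - (val b z : ℝ)| ≤ M}, ⟨?_, ?_⟩, ?_⟩
  · intro Y hY x hx x' hx'
    obtain ⟨j, -, hY⟩ := mem_biUnion.1 hY
    obtain ⟨z, -, rfl⟩ := mem_image.1 hY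
    change |(b : ℝ) ^ n * x - (val b z : ℝ)| ≤ M at hx
    change |(b : ℝ) ^ n * x' - (val b z : ℝ)| ≤ M at hx'
    have h1 : |(b : ℝ) ^ n * (x - x')| ≤ 2 * M := by
      have e : (b : ℝ) ^ n * (x - x') = ((b : ℝ) ^ n * x - val b z) - ((b : ℝ) ^ n * x' - val b z) := by
        ring
      rw [e]
      refine (abs_sub _ _).trans ?_
      linarith
    rw [abs_mul, abs_of_pos hbn] at h1
    rw [div_lt_iff₀ hδ] at ht2
    by_contra hcon
    have := mul_lt_mul_of_pos_left (not_le.1 hcon) hbn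
    linarith
  · rintro x ⟨r, hr, j, hj, rfl⟩
    have ha := approx hb (alternating_le (k := k) (b := b) hk (by omega)) hr.1 hr.2 n j
    refine ⟨_, mem_biUnion.2 ⟨j, mem_range.2 hj, mem_image.2 ⟨_, mem_image.2
      ⟨_, mem_range.2 ha.1, rfl⟩, rfl⟩⟩, ?_⟩
    have h9 : ((k * b : ℕ) : ℝ) + j ≤ M := by
      have : (j : ℝ) ≤ k := by exact_mod_cast hj.le
      rw [hM]
      push_cast
      linarith
    exact ha.2.trans h9
  · have h1 : ((range k).biUnion fun j => ((range (b ^ n)).image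
        (zz b (alternating k b) n j)).image
        fun z => {x : ℝ | |(b : ℝ) ^ n * x - (val b z : ℝ)| ≤ M}).card ≤ k * b ^ (n - (t + 1)) := by
      refine card_biUnion_le.trans ?_
      refine (Finset.sum_le_card_nsmul _ _ (b ^ (n - (t + 1))) fun j hj => ?_).trans (by simp)
      rw [hn]
      exact card_image_le.trans (words_card hk (t + 1) j (mem_range.1 hj))
    have h2 : ((b ^ (n - (t + 1)) : ℕ) : ℝ) = ((b : ℝ) ^ n) ^ (1 - 1 / (k : ℝ)) := by
      have h3 : t + 1 ≤ n := by rw [hn]; exact Nat.le_mul_of_pos_left _ (by omega)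
      rw [← Real.rpow_natCast (b : ℝ) n, ← Real.rpow_mul hb0.le, Nat.cast_pow,
        ← Real.rpow_natCast (b : ℝ) (n - (t + 1)), Nat.cast_sub h3]
      congr 1
      rw [hn]
      push_cast
      field_simp
    have h3 : ((b : ℝ) ^ n) ≤ 2 * M * y * δ⁻¹ := by
      rw [← hyn, pow_succ]
      have := mul_le_mul_of_nonneg_right ht1 hy0.le
      refine this.trans (le_of_eq ?_)
      field_simp
    have h4 : ((b : ℝ) ^ n) ^ (1 - 1 / (k : ℝ)) ≤
        (2 * M * y) ^ (1 - 1 / (k : ℝ)) * δ ^ (-(1 - 1 / (k : ℝ))) := by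
      refine (Real.rpow_le_rpow hbn.le h3 hexp).trans (le_of_eq ?_)
      rw [Real.mul_rpow (by positivity) (by positivity), Real.inv_rpow hδ.le, Real.rpow_neg hδ.le]
    calc _ ≤ ((k * b ^ (n - (t + 1)) : ℕ) : ℝ) := by exact_mod_cast h1
      _ = k * ((b : ℝ) ^ n) ^ (1 - 1 / (k : ℝ)) := by rw [Nat.cast_mul, h2]
      _ ≤ k * ((2 * M * y) ^ (1 - 1 / (k : ℝ)) * δ ^ (-(1 - 1 / (k : ℝ)))) :=
          mul_le_mul_of_nonneg_left h4 hk0.le
      _ = _ := by ring

end Pool.Agent.U685.KU
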